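import Mathlib

/-!
# Holomorphic extension of real-analytic functions
-/

set_option autoImplicit false

open Set

namespace Pool.Agent.R230.HR

variable {ι : Type*} [Fintype ι]

/-- The monomial `t ↦ ∏ t_k (J k)` as a continuous multilinear map. -/
noncomputable def monoMap (m : ℕ) (J : Fin m → ι) :
    ContinuousMultilinearMap ℂ (fun _ : Fin m => ι → ℂ) ℂ :=
  (ContinuousMultilinearMap.mkPiAlgebra ℂ (Fin m) ℂ).compContinuousLinearMap
    (fun k => ContinuousLinearMap.proj (J k))

theorem monoMap_apply (m : ℕ) (J : Fin m → ι) (t : Fin m → ι → ℂ) :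
    monoMap m J t = ∏ k, t k (J k) := by
  simp [monoMap]

theorem norm_monoMap_le (m : ℕ) (J : Fin m → ι) : ‖monoMap m J‖ ≤ 1 := by
  refine ContinuousMultilinearMap.opNorm_le_bound (by norm_num) fun t => ?_
  rw [monoMap_apply, norm_prod, one_mul]
  exact Finset.prod_le_prod (fun _ _ => norm_nonneg _) fun k _ => norm_le_pi_norm (t k) (J k)

/-- The complexified power series. -/
noncomputable def cseries [DecidableEq ι] (q : FormalMultilinearSeries ℝ (ι → ℝ) ℝ) :
    FormalMultilinearSeries ℂ (ι → ℂ) ℂ := fun m =>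
  ∑ J : Fin m → ι, ((q m (fun k => Pi.single (J k) 1) : ℝ) : ℂ) • monoMap m J

theorem norm_cseries_le [DecidableEq ι] (q : FormalMultilinearSeries ℝ (ι → ℝ) ℝ) (m : ℕ) :
    ‖cseries q m‖ ≤ (Fintype.card ι : ℝ) ^ m * ‖q m‖ := by
  have h1 : ∀ J : Fin m → ι, ‖((q m (fun k => Pi.single (J k) 1) : ℝ) : ℂ) • monoMap m J‖ ≤ ‖q m‖ := by
    intro J
    rw [norm_smul, Complex.norm_real]
    have h2 : ‖q m (fun k => Pi.single (J k) 1)‖ ≤ ‖q m‖ * ∏ k : Fin m, ‖(Pi.single (J k) 1 : ι → ℝ)‖ :=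
      (q m).le_opNorm _
    have h3 : ∏ k : Fin m, ‖(Pi.single (J k) 1 : ι → ℝ)‖ ≤ 1 := by
      refine Finset.prod_le_one (fun _ _ => norm_nonneg _) fun k _ => ?_
      rw [pi_norm_le_iff_of_nonneg (by norm_num)]
      intro i
      rcases eq_or_ne i (J k) with h | h
      · subst h; simp
      · simp [Pi.single_apply, h]
    calc ‖q m (fun k => Pi.single (J k) 1)‖ * ‖monoMap m J‖
        ≤ (‖q m‖ * 1) * 1 := by
          refine mul_le_mul (h2.trans ?_) (norm_monoMap_le m J) (norm_nonneg _) (by positivity)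
          exact mul_le_mul_of_nonneg_left h3 (norm_nonneg _)
      _ = ‖q m‖ := by ring
  calc ‖cseries q m‖ ≤ ∑ J : Fin m → ι, ‖((q m (fun k => Pi.single (J k) 1) : ℝ) : ℂ) • monoMap m J‖ :=
        norm_sum_le _ _
    _ ≤ ∑ _J : Fin m → ι, ‖q m‖ := Finset.sum_le_sum fun J _ => h1 J
    _ = (Fintype.card ι : ℝ) ^ m * ‖q m‖ := by
        rw [Finset.sum_const, nsmul_eq_mul, Finset.card_univ, Fintype.card_fun, Fintype.card_fin]
        push_cast
        ring

theorem cseries_real [DecidableEq ι] (q : FormalMultilinearSeries ℝ (ι → ℝ) ℝ) (m : ℕ)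
    (s : ι → ℝ) : cseries q m (fun _ => fun i => (s i : ℂ)) = ((q m (fun _ => s) : ℝ) : ℂ) := by
  have h1 : s = ∑ i, s i • (Pi.single i 1 : ι → ℝ) := by
    ext j
    simp [Finset.sum_apply, Pi.single_apply]
  have h2 : q m (fun _ => s) = ∑ J : Fin m → ι, (∏ k, s (J k)) * q m (fun k => Pi.single (J k) 1) := by
    conv_lhs => rw [h1]
    rw [ContinuousMultilinearMap.map_sum]
    refine Finset.sum_congr rfl fun J _ => ?_
    rw [ContinuousMultilinearMap.map_smul_univ, smul_eq_mul]
  rw [h2]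
  simp only [cseries, ContinuousMultilinearMap.sum_apply, ContinuousMultilinearMap.smul_apply,
    monoMap_apply, smul_eq_mul]
  push_cast
  exact Finset.sum_congr rfl fun J _ => mul_comm _ _

theorem exists_complexification {P : (ι → ℝ) → ℝ} (hP : AnalyticAt ℝ P 0) :
    ∃ ρ > 0, ∃ F : (ι → ℂ) → ℂ, DifferentiableOn ℂ F (Metric.ball 0 ρ) ∧
      ∀ s : ι → ℝ, ‖s‖ < ρ → F (fun i => (s i : ℂ)) = ((P s : ℝ) : ℂ) := by
  classical
  obtain ⟨q, r, hq⟩ := hP
  obtain ⟨r', hr'0, hr'⟩ : ∃ r' : NNReal, 0 < r' ∧ (r' : ENNReal) < r := by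
    have := hq.r_pos
    obtain ⟨r', h1, h2⟩ := ENNReal.lt_iff_exists_nnreal_btwn.1 this
    exact ⟨r', by exact_mod_cast h1, h2⟩
  have hr'r : (r' : ENNReal) < q.radius := lt_of_lt_of_le hr' hq.r_le
  obtain ⟨C, hC, hCb⟩ := q.norm_mul_pow_le_of_lt_radius hr'r
  set N : NNReal := (Fintype.card ι : NNReal) + 1 with hN
  have hNpos : 0 < N := by positivity
  have hrad : ((r' / N : NNReal) : ENNReal) ≤ (cseries q).radius := by
    refine FormalMultilinearSeries.le_radius_of_bound _ C fun m => ?_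
    have h1 := norm_cseries_le q m
    have h2 := hCb m
    have hcard : (Fintype.card ι : ℝ) ^ m ≤ (N : ℝ) ^ m := by
      apply pow_le_pow_left₀ (by positivity)
      rw [hN]; push_cast; linarith
    calc ‖cseries q m‖ * (((r' / N : NNReal)) : ℝ) ^ m
        ≤ ((N : ℝ) ^ m * ‖q m‖) * (((r' / N : NNReal)) : ℝ) ^ m := by
          refine mul_le_mul_of_nonneg_right (h1.trans ?_) (by positivity)
          exact mul_le_mul_of_nonneg_right hcard (norm_nonneg _)
      _ = ‖q m‖ * (r' : ℝ) ^ m := by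
          push_cast
          rw [div_pow]
          field_simp
      _ ≤ C := h2
  have hpos : 0 < (cseries q).radius := by
    refine lt_of_lt_of_le ?_ hrad
    exact_mod_cast div_pos hr'0 hNpos
  have hps := (cseries q).hasFPowerSeriesOnBall hpos
  refine ⟨min ((r' / N : NNReal) : ℝ) r', lt_min (by exact_mod_cast div_pos hr'0 hNpos)
    (by exact_mod_cast hr'0), (cseries q).sum, ?_, ?_⟩
  · have h1 : AnalyticOnNhd ℂ (cseries q).sum (Metric.eball 0 (cseries q).radius) :=
      hps.analyticOnNhd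
    refine h1.differentiableOn.mono ?_
    intro z hz
    rw [Metric.mem_ball, dist_zero_right] at hz
    rw [Metric.mem_eball, edist_zero_right]
    refine lt_of_lt_of_le ?_ hrad
    have h2 : ‖z‖ < ((r' / N : NNReal) : ℝ) := lt_of_lt_of_le hz (min_le_left _ _)
    rw [enorm_eq_nnnorm]
    exact_mod_cast h2
  · intro s hs
    have hs1 : ‖s‖ < ((r' / N : NNReal) : ℝ) := lt_of_lt_of_le hs (min_le_left _ _)
    have hs2 : ‖s‖ < r' := lt_of_lt_of_le hs (min_le_right _ _)
    have hmem : (fun i => (s i : ℂ)) ∈ Metric.eball (0 : ι → ℂ) (cseries q).radius := by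
      rw [Metric.mem_eball, edist_zero_right]
      refine lt_of_lt_of_le ?_ hrad
      have hnorm : ‖(fun i => (s i : ℂ))‖ = ‖s‖ := by
        simp [Pi.norm_def]
      rw [enorm_eq_nnnorm]
      have h2 : ‖(fun i => (s i : ℂ))‖ < ((r' / N : NNReal) : ℝ) := by rw [hnorm]; exact hs1
      exact_mod_cast h2
    have h1 := hps.hasSum_sub (y := fun i => (s i : ℂ)) (by simpa using hmem)
    have hmem2 : s ∈ Metric.eball (0 : ι → ℝ) r := by
      rw [Metric.mem_eball, edist_zero_right]
      refine lt_trans ?_ hr'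
      rw [enorm_eq_nnnorm]
      exact_mod_cast hs2
    have h2 := hq.hasSum_sub (y := s) (by simpa using hmem2)
    simp only [sub_zero] at h1 h2
    have h3 : HasSum (fun m => ((q m (fun _ => s) : ℝ) : ℂ)) ((P s : ℝ) : ℂ) :=
      Complex.hasSum_ofReal.2 h2
    have h4 : (fun m => cseries q m (fun _ => fun i => (s i : ℂ))) =
        fun m => ((q m (fun _ => s) : ℝ) : ℂ) := funext fun m => cseries_real q m s
    rw [h4] at h1
    exact h1.unique h3

end Pool.Agent.R230.HR
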