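import Mathlib

/-!
# Kernels of finite rank: minors, skeleton decompositions, products
-/

set_option autoImplicit false

open Set Matrix

namespace Pool.Agent.R230.HR

variable {X Y : Type*}

/-- The kernel `K` has rank at most `r` on `S × T`. -/
def RankLE (K : X → Y → ℂ) (S : Set X) (T : Set Y) (r : ℕ) : Prop :=
  ∃ (a : Fin r → X → ℂ) (b : Fin r → Y → ℂ), ∀ x ∈ S, ∀ y ∈ T, K x y = ∑ j, a j x * b j y

theorem RankLE.of_fintype {K : X → Y → ℂ} {S : Set X} {T : Set Y} {ι : Type*} [Fintype ι]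
    (a : ι → X → ℂ) (b : ι → Y → ℂ) (h : ∀ x ∈ S, ∀ y ∈ T, K x y = ∑ j, a j x * b j y)
    {r : ℕ} (hr : Fintype.card ι ≤ r) : RankLE K S T r := by
  classical
  let e : ι ≃ Fin (Fintype.card ι) := Fintype.equivFin ι
  refine ⟨fun j x => if hj : (j : ℕ) < Fintype.card ι then a (e.symm ⟨j, hj⟩) x else 0,
    fun j y => if hj : (j : ℕ) < Fintype.card ι then b (e.symm ⟨j, hj⟩) y else 0, ?_⟩
  intro x hx y hy
  rw [h x hx y hy]
  rw [← e.symm.sum_comp]
  have hinj : Function.Injective (Fin.castLE hr) := Fin.castLE_injective hr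
  rw [← Finset.sum_subset (Finset.subset_univ (Finset.univ.map ⟨Fin.castLE hr, hinj⟩))]
  · rw [Finset.sum_map]
    refine Finset.sum_congr rfl fun j _ => ?_
    have hj : ((Fin.castLE hr j : Fin r) : ℕ) < Fintype.card ι := by simp
    simp
  · intro j _ hj
    have hj' : ¬ ((j : ℕ) < Fintype.card ι) := by
      intro hlt
      apply hj
      simp only [Finset.mem_map, Finset.mem_univ, true_and, Function.Embedding.coeFn_mk]
      exact ⟨⟨j, hlt⟩, by ext; simp⟩
    simp [hj']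

theorem RankLE.mono {K : X → Y → ℂ} {S S' : Set X} {T T' : Set Y} {r r' : ℕ}
    (h : RankLE K S T r) (hS : S' ⊆ S) (hT : T' ⊆ T) (hr : r ≤ r') : RankLE K S' T' r' := by
  obtain ⟨a, b, hab⟩ := h
  exact RankLE.of_fintype a b (fun x hx y hy => hab x (hS hx) y (hT hy)) (by simpa using hr)

theorem RankLE.det_eq_zero {K : X → Y → ℂ} {S : Set X} {T : Set Y} {r : ℕ}
    (h : RankLE K S T r) {m : ℕ} (hm : r < m) (x : Fin m → X) (y : Fin m → Y)
    (hx : ∀ i, x i ∈ S) (hy : ∀ j, y j ∈ T) :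
    (Matrix.of fun i j => K (x i) (y j)).det = 0 := by
  obtain ⟨a, b, hab⟩ := h
  by_contra hdet
  have hM : (Matrix.of fun i j => K (x i) (y j)) =
      (Matrix.of fun (i : Fin m) (l : Fin r) => a l (x i)) *
        (Matrix.of fun (l : Fin r) (j : Fin m) => b l (y j)) := by
    ext i j
    simp [Matrix.mul_apply, hab _ (hx i) _ (hy j)]
  have hu : IsUnit (Matrix.of fun i j => K (x i) (y j)) := by
    rw [Matrix.isUnit_iff_isUnit_det]
    exact isUnit_iff_ne_zero.2 hdet
  have h1 : (Matrix.of fun i j => K (x i) (y j)).rank = m := by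
    have := Matrix.rank_of_isUnit _ hu
    simpa using this
  have h2 : (Matrix.of fun i j => K (x i) (y j)).rank ≤ r := by
    rw [hM]
    refine (Matrix.rank_mul_le_left _ _).trans ?_
    refine (Matrix.rank_le_width _)
  omega

/-- The formula for a kernel, given a non-vanishing minor of maximal order. -/
theorem schur (K : X → Y → ℂ) {S : Set X} {T : Set Y} {r : ℕ} (x : Fin r → X) (y : Fin r → Y)
    (hx : ∀ i, x i ∈ S) (hy : ∀ j, y j ∈ T)
    (hdet : (Matrix.of fun i j => K (x i) (y j)).det ≠ 0)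
    (hmax : ∀ (x' : Fin (r + 1) → X) (y' : Fin (r + 1) → Y), (∀ i, x' i ∈ S) → (∀ j, y' j ∈ T) →
      (Matrix.of fun i j => K (x' i) (y' j)).det = 0) :
    ∀ u ∈ S, ∀ v ∈ T,
      K u v = ∑ i, ∑ j, K u (y j) * (Matrix.of fun i j => K (x i) (y j))⁻¹ j i * K (x i) v := by
  classical
  intro u hu v hv
  set M : Matrix (Fin r) (Fin r) ℂ := Matrix.of fun i j => K (x i) (y j) with hM
  have : Invertible M := M.invertibleOfIsUnitDet (isUnit_iff_ne_zero.2 hdet)
  let x' : Fin r ⊕ Unit → X := Sum.elim x (fun _ => u)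
  let y' : Fin r ⊕ Unit → Y := Sum.elim y (fun _ => v)
  let e : Fin r ⊕ Unit ≃ Fin (r + 1) := Fintype.equivFinOfCardEq (by simp)
  have h1 := hmax (x' ∘ e.symm) (y' ∘ e.symm)
    (fun i => by
      simp only [Function.comp_apply]
      rcases e.symm i with j | j
      · exact hx j
      · exact hu)
    (fun i => by
      simp only [Function.comp_apply]
      rcases e.symm i with j | j
      · exact hy j
      · exact hv)
  have h2 : (Matrix.of fun i j => K (x' i) (y' j)).det = 0 := by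
    rw [← h1, ← Matrix.det_submatrix_equiv_self e.symm (Matrix.of fun i j => K (x' i) (y' j))]
    rfl
  have h3 : (Matrix.of fun i j => K (x' i) (y' j)) = Matrix.fromBlocks M
      (Matrix.of fun i (_ : Unit) => K (x i) v) (Matrix.of fun (_ : Unit) j => K u (y j))
      (Matrix.of fun (_ : Unit) (_ : Unit) => K u v) := by
    ext i j
    rcases i with i | i <;> rcases j with j | j <;> simp [x', y', hM]
  rw [h3, Matrix.det_fromBlocks₁₁] at h2
  have h4 := (mul_eq_zero.1 h2).resolve_left hdet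
  rw [Matrix.det_unique] at h4
  simp only [Matrix.sub_apply, Matrix.of_apply, Matrix.mul_apply] at h4
  rw [sub_eq_zero] at h4
  rw [h4]
  refine Finset.sum_congr rfl fun i _ => ?_
  rw [Finset.sum_mul]
  refine Finset.sum_congr rfl fun j _ => ?_
  rw [Matrix.invOf_eq_nonsing_inv]

/-- Skeleton decomposition of a kernel whose minors of order `R + 1` vanish. -/
theorem skeleton_of_minors {K : X → Y → ℂ} {S : Set X} {T : Set Y} {R : ℕ}
    (h : ∀ (x : Fin (R + 1) → X) (y : Fin (R + 1) → Y), (∀ i, x i ∈ S) → (∀ j, y j ∈ T) →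
      (Matrix.of fun i j => K (x i) (y j)).det = 0) :
    ∃ r ≤ R, ∃ (x : Fin r → X) (y : Fin r → Y), (∀ i, x i ∈ S) ∧ (∀ j, y j ∈ T) ∧
      ∃ B : Matrix (Fin r) (Fin r) ℂ, ∀ u ∈ S, ∀ v ∈ T,
        K u v = ∑ i, ∑ j, K u (y j) * B j i * K (x i) v := by
  classical
  let P : ℕ → Prop := fun r => ∃ (x : Fin r → X) (y : Fin r → Y), (∀ i, x i ∈ S) ∧ (∀ j, y j ∈ T) ∧
    (Matrix.of fun i j => K (x i) (y j)).det ≠ 0
  have hP0 : P 0 := ⟨Fin.elim0, Fin.elim0, fun i => i.elim0, fun i => i.elim0, by simp⟩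
  obtain ⟨x, y, hx, hy, hdet⟩ : P (Nat.findGreatest P R) := Nat.findGreatest_spec (Nat.zero_le R) hP0
  refine ⟨Nat.findGreatest P R, Nat.findGreatest_le R, x, y, hx, hy, _,
    schur K x y hx hy hdet fun x' y' hx' hy' => ?_⟩
  by_contra hne
  rcases lt_or_ge (Nat.findGreatest P R) R with hlt | hge
  · exact Nat.findGreatest_is_greatest (Nat.lt_succ_self _) hlt ⟨x', y', hx', hy', hne⟩
  · have heq : Nat.findGreatest P R = R := le_antisymm (Nat.findGreatest_le R) hge
    have h1 : P (Nat.findGreatest P R + 1) := ⟨x', y', hx', hy', hne⟩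
    rw [heq] at h1
    obtain ⟨x'', y'', hx'', hy'', hne''⟩ := h1
    exact hne'' (h x'' y'' hx'' hy'')

/-- Skeleton decomposition of a kernel of finite rank. -/
theorem skeleton {K : X → Y → ℂ} {S : Set X} {T : Set Y} {R : ℕ} (h : RankLE K S T R) :
    ∃ r ≤ R, ∃ (x : Fin r → X) (y : Fin r → Y), (∀ i, x i ∈ S) ∧ (∀ j, y j ∈ T) ∧
      ∃ B : Matrix (Fin r) (Fin r) ℂ, ∀ u ∈ S, ∀ v ∈ T,
        K u v = ∑ i, ∑ j, K u (y j) * B j i * K (x i) v :=
  skeleton_of_minors fun x y hx hy => h.det_eq_zero (Nat.lt_succ_self R) x y hx hy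

/-- The converse of `skeleton`. -/
theorem RankLE.of_skeleton {K : X → Y → ℂ} {S : Set X} {T : Set Y} {r R : ℕ} (hr : r ≤ R)
    (x : Fin r → X) (y : Fin r → Y) (B : Matrix (Fin r) (Fin r) ℂ)
    (h : ∀ u ∈ S, ∀ v ∈ T, K u v = ∑ i, ∑ j, K u (y j) * B j i * K (x i) v) : RankLE K S T R := by
  refine RankLE.of_fintype (ι := Fin r) (fun i u => ∑ j, K u (y j) * B j i) (fun i v => K (x i) v)
    (fun u hu v hv => ?_) (by simpa using hr)
  rw [h u hu v hv]
  refine Finset.sum_congr rfl fun i _ => ?_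
  rw [Finset.sum_mul]

theorem RankLE.of_minors {K : X → Y → ℂ} {S : Set X} {T : Set Y} {R : ℕ}
    (h : ∀ (x : Fin (R + 1) → X) (y : Fin (R + 1) → Y), (∀ i, x i ∈ S) → (∀ j, y j ∈ T) →
      (Matrix.of fun i j => K (x i) (y j)).det = 0) : RankLE K S T R := by
  obtain ⟨r, hr, x, y, -, -, B, hB⟩ := skeleton_of_minors h
  exact RankLE.of_skeleton hr x y B hB

theorem RankLE.symm {K : X → Y → ℂ} {S : Set X} {T : Set Y} {r : ℕ} (h : RankLE K S T r) :
    RankLE (fun y x => K x y) T S r := by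
  obtain ⟨a, b, hab⟩ := h
  exact ⟨b, a, fun y hy x hx => (hab x hx y hy).trans
    (Finset.sum_congr rfl fun _ _ => mul_comm _ _)⟩

theorem RankLE.conj {K : X → Y → ℂ} {S : Set X} {T : Set Y} {r : ℕ} (h : RankLE K S T r) :
    RankLE (fun x y => (starRingEnd ℂ) (K x y)) S T r := by
  obtain ⟨a, b, hab⟩ := h
  refine ⟨fun j x => (starRingEnd ℂ) (a j x), fun j y => (starRingEnd ℂ) (b j y),
    fun x hx y hy => ?_⟩
  show (starRingEnd ℂ) (K x y) = _
  rw [hab x hx y hy, map_sum]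
  exact Finset.sum_congr rfl fun _ _ => map_mul _ _ _

/-- Identity theorem on convex open sets. -/
theorem eq_zero_of_convex {E : Type*} [NormedAddCommGroup E] [NormedSpace ℂ E] {U N : Set E}
    (hU : IsOpen U) (hc : Convex ℝ U) {F : E → ℂ} (hF : DifferentiableOn ℂ F U) (hN : IsOpen N)
    (hNU : N ⊆ U) (hne : N.Nonempty) (h0 : ∀ z ∈ N, F z = 0) : ∀ z ∈ U, F z = 0 := by
  obtain ⟨c, hcN⟩ := hne
  intro z hz
  let γ : ℂ → E := fun τ => c + τ • (z - c)
  have hγd : Differentiable ℂ γ := by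
    intro τ
    exact ((differentiableAt_id).smul_const (z - c)).const_add c
  have hγc : Continuous γ := hγd.continuous
  have hΩ : IsOpen (γ ⁻¹' U) := hU.preimage hγc
  have hΩc : Convex ℝ (γ ⁻¹' U) := by
    intro s hs t ht a b ha hb hab
    have : γ (a • s + b • t) = a • γ s + b • γ t := by
      simp only [γ, smul_add, Complex.real_smul, add_smul, mul_smul]
      have h1 : (a : ℝ) • (s • (z - c)) = ((a : ℂ)) • (s • (z - c)) := by
        rw [Complex.coe_smul]
      have h2 : (b : ℝ) • (t • (z - c)) = ((b : ℂ)) • (t • (z - c)) := by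
        rw [Complex.coe_smul]
      rw [h1, h2]
      have h3 : c = a • c + b • c := by rw [← add_smul, hab, one_smul]
      nth_rw 1 [h3]
      abel
    show γ (a • s + b • t) ∈ U
    rw [this]
    exact hc hs ht ha hb hab
  have han : AnalyticOnNhd ℂ (F ∘ γ) (γ ⁻¹' U) := by
    apply DifferentiableOn.analyticOnNhd _ hΩ
    exact hF.comp hγd.differentiableOn (fun _ h => h)
  have h0' : (0 : ℂ) ∈ γ ⁻¹' U := by
    simp only [γ, mem_preimage, zero_smul, add_zero]; exact hNU hcN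
  have hev : F ∘ γ =ᶠ[nhds 0] 0 := by
    have : γ ⁻¹' N ∈ nhds (0 : ℂ) := by
      apply (hN.preimage hγc).mem_nhds
      simp only [γ, mem_preimage, zero_smul, add_zero]; exact hcN
    filter_upwards [this] with τ hτ
    exact h0 _ hτ
  have := han.eqOn_zero_of_preconnected_of_eventuallyEq_zero hΩc.isPreconnected h0' hev
  have h1 : (1 : ℂ) ∈ γ ⁻¹' U := by
    simp only [γ, mem_preimage, one_smul, add_sub_cancel]; exact hz
  have h2 := this h1
  simpa [γ] using h2

/-- Rank of kernels on products. -/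
theorem RankLE.prod {E₁ E₂ : Type*} [NormedAddCommGroup E₁] [NormedSpace ℂ E₁]
    [NormedAddCommGroup E₂] [NormedSpace ℂ E₂] {K : E₁ × E₂ → Y → ℂ} {U₁ : Set E₁} {U₂ : Set E₂}
    {T : Set Y} (h1o : IsOpen U₁) (h2o : IsOpen U₂) (h1c : Convex ℝ U₁) (h2c : Convex ℝ U₂)
    (hne : U₁.Nonempty) (hK : ∀ y ∈ T, DifferentiableOn ℂ (fun x => K x y) (U₁ ×ˢ U₂)) {r₁ r₂ : ℕ}
    (hr₁ : ∀ x₂ ∈ U₂, RankLE (fun x₁ y => K (x₁, x₂) y) U₁ T r₁)
    (hr₂ : ∀ x₁ ∈ U₁, RankLE (fun x₂ y => K (x₁, x₂) y) U₂ T r₂) :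
    RankLE K (U₁ ×ˢ U₂) T (r₁ * r₂) := by
  classical
  rcases U₂.eq_empty_or_nonempty with hem | hne2
  · refine ⟨0, 0, fun x hx => ?_⟩
    rw [hem] at hx
    simp at hx
  let P : ℕ → Prop := fun r => ∃ x₂ ∈ U₂, ∃ (x : Fin r → E₁) (y : Fin r → Y), (∀ i, x i ∈ U₁) ∧
    (∀ j, y j ∈ T) ∧ (Matrix.of fun i j => K (x i, x₂) (y j)).det ≠ 0
  have hP0 : P 0 := by
    obtain ⟨c, hc⟩ := hne2
    exact ⟨c, hc, Fin.elim0, Fin.elim0, fun i => i.elim0, fun i => i.elim0, by simp⟩
  have hspec : P (Nat.findGreatest P r₁) := Nat.findGreatest_spec (Nat.zero_le r₁) hP0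
  set r := Nat.findGreatest P r₁ with hr
  have hrle : r ≤ r₁ := Nat.findGreatest_le r₁
  have hmax : ¬ P (r + 1) := by
    rcases lt_or_ge r r₁ with hlt | hge
    · exact Nat.findGreatest_is_greatest (Nat.lt_succ_self _) hlt
    · rintro ⟨x₂, hx₂, x, y, hx, hy, hd⟩
      exact hd ((hr₁ x₂ hx₂).det_eq_zero (by omega) x y hx hy)
  obtain ⟨c, hc, x, y, hx, hy, hd⟩ := hspec
  -- the minor does not vanish near `c`
  have hcont : ContinuousOn (fun x₂ => (Matrix.of fun i j => K (x i, x₂) (y j)).det) U₂ := by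
    have h1 : ∀ i j, ContinuousOn (fun x₂ => K (x i, x₂) (y j)) U₂ := by
      intro i j
      exact (hK (y j) (hy j)).continuousOn.comp (by fun_prop) (fun x₂ hx₂ => ⟨hx i, hx₂⟩)
    have h2 : ContinuousOn (fun x₂ => (Matrix.of fun i j => K (x i, x₂) (y j) :
        Matrix (Fin r) (Fin r) ℂ)) U₂ := by
      refine continuousOn_pi.2 fun i => continuousOn_pi.2 fun j => h1 i j
    exact (continuous_id.matrix_det).comp_continuousOn h2
  obtain ⟨N, hNo, hNU, hcN, hNd⟩ : ∃ N : Set E₂, IsOpen N ∧ N ⊆ U₂ ∧ c ∈ N ∧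
      ∀ x₂ ∈ N, (Matrix.of fun i j => K (x i, x₂) (y j)).det ≠ 0 := by
    have hat : ContinuousAt (fun x₂ => (Matrix.of fun i j => K (x i, x₂) (y j)).det) c :=
      hcont.continuousAt (h2o.mem_nhds hc)
    have h3 := hat.eventually_ne hd
    obtain ⟨N, hN1, hN2, hN3⟩ := eventually_nhds_iff.1 (h3.and (h2o.mem_nhds hc))
    exact ⟨N, hN2, fun z hz => (hN1 z hz).2, hN3, fun z hz => (hN1 z hz).1⟩
  have key : ∀ x₂ ∈ N, ∀ u ∈ U₁, ∀ v ∈ T, K (u, x₂) v = ∑ i, ∑ j, K (u, x₂) (y j) *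
      (Matrix.of fun i j => K (x i, x₂) (y j))⁻¹ j i * K (x i, x₂) v := by
    intro x₂ hx₂
    exact schur (fun x₁ y => K (x₁, x₂) y) x y hx hy (hNd x₂ hx₂) fun x' y' hx' hy' => by
      by_contra hne
      exact hmax ⟨x₂, hNU hx₂, x', y', hx', hy', hne⟩
  -- rank on the small set
  choose a b hab using fun i => hr₂ (x i) (hx i)
  have hab' : ∀ i, ∀ x₂ ∈ U₂, ∀ v ∈ T, K (x i, x₂) v = ∑ l, a i l x₂ * b i l v := hab
  have hsmall : RankLE K (U₁ ×ˢ N) T (r * r₂) := by
    refine RankLE.of_fintype (ι := Fin r × Fin r₂)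
      (fun q z => (∑ j, K z (y j) * (Matrix.of fun i j => K (x i, z.2) (y j))⁻¹ j q.1) *
        a q.1 q.2 z.2) (fun q v => b q.1 q.2 v) ?_ (by simp)
    rintro ⟨u, x₂⟩ ⟨hu, hx₂⟩ v hv
    rw [key x₂ hx₂ u hu v hv, Fintype.sum_prod_type]
    refine Finset.sum_congr rfl fun i _ => ?_
    rw [← Finset.sum_mul, hab' i x₂ (hNU hx₂) v hv, Finset.mul_sum]
    refine Finset.sum_congr rfl fun l _ => ?_
    simp only
    ring
  obtain ⟨s, hs, ξ, η, hξ, hη, B, hB⟩ := skeleton hsmall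
  refine RankLE.of_skeleton (hs.trans (Nat.mul_le_mul_right _ hrle)) ξ η B fun u hu v hv => ?_
  have hopen : IsOpen (U₁ ×ˢ U₂) := h1o.prod h2o
  have hz := eq_zero_of_convex (U := U₁ ×ˢ U₂) (N := U₁ ×ˢ N) hopen (h1c.prod h2c)
    (F := fun u => K u v - ∑ i, ∑ j, K u (η j) * B j i * K (ξ i) v) ?_ (h1o.prod hNo)
    (Set.prod_mono subset_rfl hNU) (hne.prod ⟨c, hcN⟩)
    (fun z hz => sub_eq_zero.2 (hB z hz v hv)) u hu
  · exact sub_eq_zero.1 hz
  · refine (hK v hv).sub ?_
    refine DifferentiableOn.fun_sum fun i _ => DifferentiableOn.fun_sum fun j _ => ?_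
    exact ((hK _ (hη j)).mul_const _).mul_const _

/-- Kernels on polydiscs whose restrictions to coordinate lines have rank at most `r`. -/
theorem RankLE.pi {T : Set Y} {r : ℕ} : ∀ (n : ℕ) (D : Fin n → Set ℂ), (∀ i, IsOpen (D i)) →
    (∀ i, Convex ℝ (D i)) → (∀ i, (D i).Nonempty) → ∀ (K : (Fin n → ℂ) → Y → ℂ),
    (∀ y ∈ T, DifferentiableOn ℂ (fun z => K z y) (Set.pi univ D)) →
    (∀ z ∈ Set.pi univ D, ∀ i, RankLE (fun t y => K (Function.update z i t) y) (D i) T r) →
    RankLE K (Set.pi univ D) T (r ^ n) := by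
  intro n
  induction n with
  | zero =>
    intro D _ _ _ K _ _
    refine RankLE.of_fintype (ι := Unit) (fun _ _ => 1) (fun _ y => K default y)
      (fun z _ y _ => ?_) (by simp)
    rw [Subsingleton.elim z default]
    simp
  | succ n ih =>
    intro D hDo hDc hDne K hK hr
    have hcons : Differentiable ℂ (fun q : ℂ × (Fin n → ℂ) => (Fin.cons q.1 q.2 : Fin (n + 1) → ℂ)) := by
      rw [differentiable_pi]
      intro i
      refine Fin.cases ?_ (fun j => ?_) i
      · simp only [Fin.cons_zero]; fun_prop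
      · simp only [Fin.cons_succ]; fun_prop
    have hmem : ∀ (t : ℂ) (x : Fin n → ℂ), t ∈ D 0 → x ∈ Set.pi univ (fun j : Fin n => D j.succ) →
        (Fin.cons t x : Fin (n + 1) → ℂ) ∈ Set.pi univ D := by
      intro t x ht hx i _
      refine Fin.cases ?_ (fun j => ?_) i
      · simpa using ht
      · simpa using hx j (mem_univ _)
    have h1 : RankLE (fun (q : ℂ × (Fin n → ℂ)) y => K (Fin.cons q.1 q.2 : Fin (n + 1) → ℂ) y)
        (D 0 ×ˢ Set.pi univ (fun j : Fin n => D j.succ)) T (r * r ^ n) := by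
      refine RankLE.prod (hDo 0) (isOpen_set_pi finite_univ fun j _ => hDo _) (hDc 0)
        (convex_pi fun j _ => hDc _) (hDne 0) ?_ ?_ ?_
      · intro y hy
        exact (hK y hy).comp hcons.differentiableOn (fun q hq => hmem q.1 q.2 hq.1 hq.2)
      · intro x hx
        obtain ⟨c, hc⟩ := hDne 0
        have h2 := hr (Fin.cons c x) (hmem c x hc hx) 0
        simpa only [Fin.update_cons_zero] using h2
      · intro t ht
        refine ih (fun j => D j.succ) (fun j => hDo _) (fun j => hDc _) (fun j => hDne _)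
          (fun x y => K (Fin.cons t x : Fin (n + 1) → ℂ) y) ?_ ?_
        · intro y hy
          refine (hK y hy).comp (g := fun z => K z y)
            (f := fun x : Fin n → ℂ => (Fin.cons t x : Fin (n + 1) → ℂ)) ?_
            (fun x hx => hmem t x ht hx)
          exact (hcons.comp (f := fun x : Fin n → ℂ => (t, x)) (by fun_prop)).differentiableOn
        · intro x hx i
          have h2 := hr (Fin.cons t x) (hmem t x ht hx) i.succ
          simpa only [← Fin.cons_update] using h2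
    obtain ⟨a, b, hab⟩ := h1
    have h2 : RankLE K (Set.pi univ D) T (r * r ^ n) := by
      refine ⟨fun j z => a j (z 0, Fin.tail z), b, fun z hz y hy => ?_⟩
      have h3 := hab (z 0, Fin.tail z) ⟨hz 0 (mem_univ _), fun j _ => hz j.succ (mem_univ _)⟩ y hy
      simpa only [Fin.cons_self_tail] using h3
    exact h2.mono subset_rfl subset_rfl (by rw [pow_succ]; exact (mul_comm _ _).le)

end Pool.Agent.R230.HR
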