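import Mathlib
import Pool.Agent.R230.HR.Skel

/-!
# Polarization
-/

set_option autoImplicit false

open Set Matrix

namespace Pool.Agent.R230.HR

/-- The kernel `K` is holomorphic in the first variable, antiholomorphic in the second one. -/
def Sesq {E : Type*} [NormedAddCommGroup E] [NormedSpace ℂ E] [Star E] (K : E → E → ℂ) (U : Set E) :
    Prop :=
  DifferentiableOn ℂ (fun q : E × E => K q.1 (star q.2)) (U ×ˢ (star ⁻¹' U))

section general

variable {E : Type*} [NormedAddCommGroup E] [NormedSpace ℂ E] [StarAddMonoid E] [StarModule ℂ E]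
  [ContinuousStar E]

theorem convex_preimage_line {E : Type*} [NormedAddCommGroup E] [NormedSpace ℂ E] {U : Set E}
    (hc : Convex ℝ U) (s t : E) : Convex ℝ {τ : ℂ | s + τ • t ∈ U} := by
  intro x hx y hy a b ha hb hab
  have : s + (a • x + b • y) • t = a • (s + x • t) + b • (s + y • t) := by
    simp only [smul_add, Complex.real_smul, add_smul, mul_smul]
    have h1 : (a : ℝ) • (x • t) = ((a : ℂ)) • (x • t) := by rw [Complex.coe_smul]
    have h2 : (b : ℝ) • (y • t) = ((b : ℂ)) • (y • t) := by rw [Complex.coe_smul]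
    rw [h1, h2]
    have h3 : s = a • s + b • s := by rw [← add_smul, hab, one_smul]
    nth_rw 1 [h3]
    abel
  show s + (a • x + b • y) • t ∈ U
  rw [this]
  exact hc hx hy ha hb hab

theorem convex_preimage_line_conj {E : Type*} [NormedAddCommGroup E] [NormedSpace ℂ E] {U : Set E}
    (hc : Convex ℝ U) (s t : E) : Convex ℝ {τ : ℂ | s + (starRingEnd ℂ τ) • t ∈ U} := by
  intro x hx y hy a b ha hb hab
  have h := convex_preimage_line hc s t hx hy ha hb hab
  simp only [mem_setOf_eq] at h ⊢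
  rw [map_add]
  have h1 : ∀ (c : ℝ) (w : ℂ), (starRingEnd ℂ) (c • w) = c • (starRingEnd ℂ) w := by
    intro c w
    simp [Complex.real_smul]
  rw [h1, h1]
  exact h

/-- Uniqueness of polarization. -/
theorem polar_unique {Φ : E → E → ℂ} {U : Set E} (hU : IsOpen U) (hc : Convex ℝ U)
    (hΦ : Sesq Φ U) (h0 : ∀ z ∈ U, Φ z z = 0) : ∀ z ∈ U, ∀ w ∈ U, Φ z w = 0 := by
  intro z hz w hw
  set s : E := (2 : ℂ)⁻¹ • (z + w) with hs
  set t : E := ((2 : ℂ) * Complex.I)⁻¹ • (z - w) with ht
  have hI : (2 * Complex.I : ℂ) ≠ 0 := by simp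
  have e1 : s + Complex.I • t = z := by
    rw [hs, ht, smul_smul]
    have : Complex.I * (2 * Complex.I)⁻¹ = (2 : ℂ)⁻¹ := by
      field_simp
    rw [this, ← smul_add]
    have h2 : z + w + (z - w) = (2 : ℂ) • z := by rw [two_smul]; abel
    rw [h2, smul_smul]; norm_num
  have e2 : s + (-Complex.I) • t = w := by
    rw [hs, ht, smul_smul]
    have : -Complex.I * (2 * Complex.I)⁻¹ = -(2 : ℂ)⁻¹ := by
      field_simp
    rw [this, neg_smul, ← sub_eq_add_neg, ← smul_sub]
    have h2 : z + w - (z - w) = (2 : ℂ) • w := by rw [two_smul]; abel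
    rw [h2, smul_smul]; norm_num
  let Ω : Set ℂ := {τ : ℂ | s + τ • t ∈ U} ∩ {τ : ℂ | s + (starRingEnd ℂ τ) • t ∈ U}
  let q : ℂ → E × E := fun τ => (s + τ • t, star s + τ • star t)
  have hqs : ∀ τ : ℂ, star (q τ).2 = s + (starRingEnd ℂ τ) • t := by
    intro τ
    simp only [q, star_add, star_smul, star_star]
    rfl
  have hqd : Differentiable ℂ q := by
    intro τ
    exact DifferentiableAt.prodMk (((differentiableAt_id).smul_const t).const_add s)
      (((differentiableAt_id).smul_const (star t)).const_add (star s))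
  have hΩo : IsOpen Ω := by
    refine IsOpen.inter (hU.preimage (by fun_prop)) (hU.preimage ?_)
    exact continuous_const.add ((Complex.continuous_conj).smul continuous_const)
  have hΩc : Convex ℝ Ω := (convex_preimage_line hc s t).inter (convex_preimage_line_conj hc s t)
  have hmaps : MapsTo q Ω (U ×ˢ (star ⁻¹' U)) := by
    intro τ hτ
    refine ⟨hτ.1, ?_⟩
    rw [mem_preimage, hqs]
    exact hτ.2
  have han : AnalyticOnNhd ℂ (fun τ => Φ (q τ).1 (star (q τ).2)) Ω :=
    DifferentiableOn.analyticOnNhd (hΦ.comp hqd.differentiableOn hmaps) hΩo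
  have hs' : s ∈ U := by
    have h1 : s = (1 / 2 : ℝ) • z + (1 / 2 : ℝ) • w := by
      rw [hs, ← smul_add]
      rw [← Complex.coe_smul]
      norm_num
    rw [h1]
    exact hc hz hw (by norm_num) (by norm_num) (by norm_num)
  have h0Ω : (0 : ℂ) ∈ Ω := by
    constructor <;> simp [hs']
  have hIΩ : Complex.I ∈ Ω := by
    constructor
    · show s + Complex.I • t ∈ U
      rw [e1]; exact hz
    · show s + (starRingEnd ℂ Complex.I) • t ∈ U
      rw [Complex.conj_I, e2]; exact hw
  have hreal : ∀ᶠ r : ℝ in nhdsWithin 0 {0}ᶜ, Φ (q (r : ℂ)).1 (star (q (r : ℂ)).2) = 0 := by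
    have h1 : ∀ᶠ r : ℝ in nhds (0 : ℝ), (r : ℂ) ∈ Ω := by
      have : ContinuousAt (fun r : ℝ => (r : ℂ)) 0 := Complex.continuous_ofReal.continuousAt
      apply this.eventually_mem
      rw [Complex.ofReal_zero]
      exact hΩo.mem_nhds h0Ω
    filter_upwards [h1.filter_mono nhdsWithin_le_nhds] with r hr
    rw [hqs, Complex.conj_ofReal]
    exact h0 _ hr.1
  have hfreq : ∃ᶠ τ in nhdsWithin (0 : ℂ) {0}ᶜ, Φ (q τ).1 (star (q τ).2) = 0 := by
    have htend : Filter.Tendsto (fun r : ℝ => (r : ℂ)) (nhdsWithin 0 {0}ᶜ)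
        (nhdsWithin (0 : ℂ) {0}ᶜ) := by
      refine tendsto_nhdsWithin_iff.2 ⟨?_, ?_⟩
      · have : Filter.Tendsto (fun r : ℝ => (r : ℂ)) (nhds 0) (nhds ((0 : ℝ) : ℂ)) :=
          Complex.continuous_ofReal.continuousAt
        rw [Complex.ofReal_zero] at this
        exact this.mono_left nhdsWithin_le_nhds
      · filter_upwards [self_mem_nhdsWithin] with r hr
        simpa using hr
    exact htend.frequently hreal.frequently
  have hzero := han.eqOn_zero_of_preconnected_of_frequently_eq_zero hΩc.isPreconnected h0Ω hfreq hIΩ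
  simp only [Pi.zero_apply] at hzero
  rw [hqs, Complex.conj_I, e2] at hzero
  simp only [q] at hzero
  rw [e1] at hzero
  exact hzero

/-- `conj ∘ f ∘ star` is holomorphic if `f` is. -/
theorem differentiableAt_conj_star [NormedStarGroup E] {f : E → ℂ} {x : E}
    (hf : DifferentiableAt ℂ f (star x)) :
    DifferentiableAt ℂ (fun x => (starRingEnd ℂ) (f (star x))) x := by
  obtain ⟨f', hf'⟩ := hf
  let g' : E →L[ℂ] ℂ :=
    ((starL ℂ : ℂ ≃L⋆[ℂ] ℂ) : ℂ →L⋆[ℂ] ℂ).comp (f'.comp ((starL ℂ : E ≃L⋆[ℂ] E) : E →L⋆[ℂ] E))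
  refine ⟨g', ?_⟩
  rw [hasFDerivAt_iff_tendsto] at hf' ⊢
  have hst : Filter.Tendsto (fun x' : E => star x') (nhds x) (nhds (star x)) :=
    continuous_star.continuousAt
  refine (hf'.comp hst).congr fun x' => ?_
  simp only [Function.comp_apply]
  have h1 : ‖star x' - star x‖ = ‖x' - x‖ := by rw [← star_sub, norm_star]
  rw [h1]
  congr 1
  rw [← RCLike.norm_conj]
  congr 1
  simp only [map_sub, g', ContinuousLinearMap.coe_comp', Function.comp_apply,
    ContinuousLinearEquiv.coe_coe, starL_apply, star_sub]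
  rfl

end general

end Pool.Agent.R230.HR
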