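import Mathlib
import Pool.Agent.R230.HR.Skel
import Pool.Agent.R230.HR.Polar
import Pool.Agent.R230.HR.Complexify

/-!
# Hermitian kernels of real-analytic functions whose restrictions to complex lines have bounded rank
-/

set_option autoImplicit false

open Set Matrix Metric

namespace Pool.Agent.R230.HR

variable {n : ℕ}

/-- `p` has a polarization on `U`. -/
def HasKer (p : (Fin n → ℂ) → ℝ) (U : Set (Fin n → ℂ)) : Prop :=
  ∃ K : (Fin n → ℂ) → (Fin n → ℂ) → ℂ, Sesq K U ∧ ∀ z ∈ U, K z z = ((p z : ℝ) : ℂ)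

theorem Sesq.mono {E : Type*} [NormedAddCommGroup E] [NormedSpace ℂ E] [Star E] {K : E → E → ℂ}
    {U V : Set E} (h : Sesq K U) (hV : V ⊆ U) : Sesq K V :=
  DifferentiableOn.mono h (Set.prod_mono hV (preimage_mono hV))

theorem HasKer.mono {p : (Fin n → ℂ) → ℝ} {U V : Set (Fin n → ℂ)} (h : HasKer p U) (hV : V ⊆ U) :
    HasKer p V := by
  obtain ⟨K, h1, h2⟩ := h
  exact ⟨K, h1.mono hV, fun z hz => h2 z (hV hz)⟩

/-- Existence of local polarizations. -/
theorem exists_local {p : (Fin n → ℂ) → ℝ} {x₀ : Fin n → ℂ} (hp : AnalyticAt ℝ p x₀) :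
    ∃ ρ > 0, HasKer p (ball x₀ ρ) := by
  let L : (Fin n ⊕ Fin n → ℝ) →L[ℝ] (Fin n → ℂ) := ContinuousLinearMap.pi fun i =>
    Complex.ofRealCLM.comp (ContinuousLinearMap.proj (Sum.inl i)) +
      (Complex.I • Complex.ofRealCLM).comp (ContinuousLinearMap.proj (Sum.inr i))
  have hL : ∀ s i, L s i = (s (Sum.inl i) : ℂ) + Complex.I * (s (Sum.inr i) : ℂ) := by
    intro s i
    simp [L]
  have hP : AnalyticAt ℝ (fun s => p (x₀ + L s)) 0 := by
    have h1 : AnalyticAt ℝ (fun s => x₀ + L s) 0 := analyticAt_const.add (L.analyticAt _)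
    refine AnalyticAt.fun_comp (g := p) ?_ h1
    simpa using hp
  obtain ⟨ρ, hρ, F, hF, hFs⟩ := exists_complexification hP
  let c : (Fin n → ℂ) → (Fin n → ℂ) → (Fin n ⊕ Fin n → ℂ) := fun a b =>
    Sum.elim (fun i => (a i + star (b i)) / 2) (fun i => (a i - star (b i)) / (2 * Complex.I))
  have hcn : ∀ a b : Fin n → ℂ, ‖a‖ < ρ → ‖b‖ < ρ → ‖c a b‖ < ρ := by
    intro a b ha hb
    rw [pi_norm_lt_iff hρ]
    have hb' : ∀ i, ‖star (b i)‖ < ρ := fun i => by
      rw [norm_star]; exact lt_of_le_of_lt (norm_le_pi_norm b i) hb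
    have ha' : ∀ i, ‖a i‖ < ρ := fun i => lt_of_le_of_lt (norm_le_pi_norm a i) ha
    rintro (i | i)
    · simp only [c, Sum.elim_inl, norm_div, Complex.norm_ofNat]
      have := norm_add_le (a i) (star (b i))
      have := ha' i
      have := hb' i
      linarith
    · simp only [c, Sum.elim_inr, norm_div, norm_mul, Complex.norm_ofNat, Complex.norm_I, mul_one]
      have := norm_sub_le (a i) (star (b i))
      have := ha' i
      have := hb' i
      linarith
  refine ⟨ρ, hρ, fun z w => F (c (z - x₀) (w - x₀)), ?_, ?_⟩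
  · refine hF.comp (g := F) (f := fun q : (Fin n → ℂ) × (Fin n → ℂ) =>
      c (q.1 - x₀) (star q.2 - x₀)) ?_ ?_
    · have : Differentiable ℂ (fun q : (Fin n → ℂ) × (Fin n → ℂ) =>
          c (q.1 - x₀) (star q.2 - x₀)) := by
        rw [differentiable_pi]
        rintro (i | i)
        · simp only [c, Sum.elim_inl, Pi.sub_apply, Pi.star_apply, star_sub, star_star]
          fun_prop
        · simp only [c, Sum.elim_inr, Pi.sub_apply, Pi.star_apply, star_sub, star_star]
          fun_prop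
      exact this.differentiableOn
    · rintro ⟨a, b⟩ ⟨ha, hb⟩
      rw [mem_ball_zero_iff]
      refine hcn _ _ ?_ ?_
      · simpa [dist_eq_norm] using ha
      · have hb' : star b ∈ ball x₀ ρ := hb
        rwa [mem_ball, dist_eq_norm] at hb'
  · intro z hz
    have hz' : ‖z - x₀‖ < ρ := by simpa [dist_eq_norm] using hz
    let s : Fin n ⊕ Fin n → ℝ := Sum.elim (fun i => (z i - x₀ i).re) (fun i => (z i - x₀ i).im)
    have hs : ‖s‖ < ρ := by
      rw [pi_norm_lt_iff hρ]
      have ha' : ∀ i, ‖z i - x₀ i‖ < ρ := fun i =>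
        lt_of_le_of_lt (norm_le_pi_norm (z - x₀) i) hz'
      rintro (i | i)
      · simp only [s, Sum.elim_inl, Real.norm_eq_abs]
        exact lt_of_le_of_lt (Complex.abs_re_le_norm _) (ha' i)
      · simp only [s, Sum.elim_inr, Real.norm_eq_abs]
        exact lt_of_le_of_lt (Complex.abs_im_le_norm _) (ha' i)
    have hcs : c (z - x₀) (z - x₀) = fun i => (s i : ℂ) := by
      ext i
      rcases i with i | i
      · simp only [c, s, Sum.elim_inl, Pi.sub_apply]
        have := Complex.re_eq_add_conj (z i - x₀ i)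
        rw [this]; rfl
      · simp only [c, s, Sum.elim_inr, Pi.sub_apply]
        have := Complex.im_eq_sub_conj (z i - x₀ i)
        rw [this]; rfl
    have hLs : x₀ + L s = z := by
      ext i
      rw [Pi.add_apply, hL]
      simp only [s, Sum.elim_inl, Sum.elim_inr]
      have := Complex.re_add_im (z i - x₀ i)
      rw [mul_comm, this]
      ring
    have h1 := hFs s hs
    rw [hLs] at h1
    show F (c (z - x₀) (z - x₀)) = _
    rw [hcs, h1]

/-- Uniqueness of polarizations. -/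
theorem ker_unique {p : (Fin n → ℂ) → ℝ} {U : Set (Fin n → ℂ)} (hU : IsOpen U) (hc : Convex ℝ U)
    {K K' : (Fin n → ℂ) → (Fin n → ℂ) → ℂ} (hK : Sesq K U) (hK' : Sesq K' U)
    (h : ∀ z ∈ U, K z z = ((p z : ℝ) : ℂ)) (h' : ∀ z ∈ U, K' z z = ((p z : ℝ) : ℂ)) :
    ∀ z ∈ U, ∀ w ∈ U, K z w = K' z w := by
  intro z hz w hw
  have := polar_unique (Φ := fun z w => K z w - K' z w) hU hc (DifferentiableOn.sub hK hK')
    (fun z hz => by rw [h z hz, h' z hz, sub_self]) z hz w hw
  exact sub_eq_zero.1 this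

theorem herm {p : (Fin n → ℂ) → ℝ} {U : Set (Fin n → ℂ)} (hU : IsOpen U) (hc : Convex ℝ U)
    {K : (Fin n → ℂ) → (Fin n → ℂ) → ℂ} (hK : Sesq K U)
    (h : ∀ z ∈ U, K z z = ((p z : ℝ) : ℂ)) :
    ∀ z ∈ U, ∀ w ∈ U, K w z = (starRingEnd ℂ) (K z w) := by
  intro z hz w hw
  refine ker_unique hU hc hK (K' := fun w z => (starRingEnd ℂ) (K z w)) ?_ h ?_ w hw z hz
  · intro q hq
    apply DifferentiableAt.differentiableWithinAt
    have hopen : IsOpen (U ×ˢ (star ⁻¹' U)) := hU.prod (hU.preimage continuous_star)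
    have h1 : DifferentiableAt ℂ (fun q : (Fin n → ℂ) × (Fin n → ℂ) => K q.1 (star q.2))
        (star (q.2, q.1)) := by
      apply DifferentiableOn.differentiableAt hK
      apply hopen.mem_nhds
      exact ⟨hq.2, by
        show star (star q.1) ∈ U
        rw [star_star]; exact hq.1⟩
    have h2 := differentiableAt_conj_star h1
    have h3 : DifferentiableAt ℂ (fun q : (Fin n → ℂ) × (Fin n → ℂ) => (q.2, q.1)) q := by fun_prop
    have h4 := DifferentiableAt.comp q h2 h3
    refine h4.congr_of_eventuallyEq (Filter.Eventually.of_forall fun q' => ?_)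
    simp only [Function.comp_apply, Prod.fst_star, Prod.snd_star, star_star]
  · intro z hz
    show (starRingEnd ℂ) (K z z) = _
    rw [h z hz, Complex.conj_ofReal]

/-- The hypothesis on the restrictions of `p` to complex lines. -/
def LineHyp (p : (Fin n → ℂ) → ℝ) (k : ℕ) : Prop :=
  ∀ z v : Fin n → ℂ, ∃ (ε : Fin k → ℝ) (g : Fin k → ℂ → ℂ), (∀ j, Differentiable ℂ (g j)) ∧
    ∀ t : ℂ, p (z + t • v) = ∑ j, ε j * Complex.normSq (g j t)

theorem line_rank {p : (Fin n → ℂ) → ℝ} {k : ℕ} (hp : LineHyp p k) {U : Set (Fin n → ℂ)}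
    (hU : IsOpen U) (hc : Convex ℝ U) {K : (Fin n → ℂ) → (Fin n → ℂ) → ℂ} (hK : Sesq K U)
    (h : ∀ z ∈ U, K z z = ((p z : ℝ) : ℂ)) (z v : Fin n → ℂ) :
    RankLE (fun s t : ℂ => K (z + s • v) (z + t • v)) {s | z + s • v ∈ U} {t | z + t • v ∈ U} k := by
  obtain ⟨ε, g, hg, hpg⟩ := hp z v
  set Ω : Set ℂ := {s | z + s • v ∈ U} with hΩ
  have hΩo : IsOpen Ω := hU.preimage (by fun_prop)
  have hΩc : Convex ℝ Ω := convex_preimage_line hc z v
  refine ⟨fun j s => (ε j : ℂ) * g j s, fun j t => (starRingEnd ℂ) (g j t), ?_⟩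
  intro s hs t ht
  have key := polar_unique (Φ := fun s t : ℂ => K (z + s • v) (z + t • v) -
    ∑ j, (ε j : ℂ) * g j s * (starRingEnd ℂ) (g j t)) hΩo hΩc ?_ ?_ s hs t ht
  · exact sub_eq_zero.1 key
  · refine DifferentiableOn.sub ?_ ?_
    · have h1 : Differentiable ℂ (fun q : ℂ × ℂ => (z + q.1 • v, star z + q.2 • star v)) := by
        fun_prop
      have h2 : ∀ q : ℂ × ℂ, star (star z + q.2 • star v) = z + star q.2 • v := by
        intro q
        rw [star_add, star_star, star_smul, star_star]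
      have h3 := DifferentiableOn.comp (g := fun q : (Fin n → ℂ) × (Fin n → ℂ) => K q.1 (star q.2))
        (f := fun q : ℂ × ℂ => (z + q.1 • v, star z + q.2 • star v)) (s := Ω ×ˢ (star ⁻¹' Ω))
        hK h1.differentiableOn (by
          rintro q ⟨hq1, hq2⟩
          refine ⟨hq1, ?_⟩
          show star (star z + q.2 • star v) ∈ U
          rw [h2]; exact hq2)
      refine h3.congr fun q hq => ?_
      simp only [Function.comp_apply, h2]
    · refine DifferentiableOn.fun_sum fun j _ => ?_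
      refine DifferentiableOn.mul ?_ ?_
      · exact ((((hg j).comp differentiable_fst)).const_mul _).differentiableOn
      · intro q hq
        apply DifferentiableAt.differentiableWithinAt
        have h1 : DifferentiableAt ℂ (fun x : ℂ => (starRingEnd ℂ) (g j (star x))) q.2 :=
          differentiableAt_conj_star (hg j _)
        exact DifferentiableAt.comp (g := fun x : ℂ => (starRingEnd ℂ) (g j (star x)))
          (f := fun q : ℂ × ℂ => q.2) q h1 differentiableAt_snd
  · intro s hs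
    show K (z + s • v) (z + s • v) - ∑ j, (ε j : ℂ) * g j s * (starRingEnd ℂ) (g j s) = 0
    rw [h _ hs, hpg, sub_eq_zero]
    push_cast
    refine Finset.sum_congr rfl fun j _ => ?_
    rw [Complex.normSq_eq_conj_mul_self]
    ring

/-- The minors of order `k + 1` for pairs of different complex lines vanish as well. -/
theorem pair_det {p : (Fin n → ℂ) → ℝ} {k : ℕ} (hp : LineHyp p k) {U : Set (Fin n → ℂ)}
    (hU : IsOpen U) (hc : Convex ℝ U) {K : (Fin n → ℂ) → (Fin n → ℂ) → ℂ} (hK : Sesq K U)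
    (h : ∀ z ∈ U, K z z = ((p z : ℝ) : ℂ)) (s t : Fin (k + 1) → ℂ) (z v w u : Fin n → ℂ)
    (h1 : ∀ i, z + s i • v ∈ U) (h2 : ∀ i, z + t i • v ∈ U) (h3 : ∀ i, w + s i • u ∈ U)
    (h4 : ∀ i, w + t i • u ∈ U) :
    (Matrix.of fun i j => K (z + s i • v) (w + t j • u)).det = 0 := by
  let V : Set ((Fin n → ℂ) × (Fin n → ℂ)) :=
    (⋂ i, {q | q.1 + s i • q.2 ∈ U}) ∩ (⋂ i, {q | q.1 + t i • q.2 ∈ U})
  have hVo : IsOpen V := by
    refine IsOpen.inter (isOpen_iInter_of_finite fun i => hU.preimage (by fun_prop))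
      (isOpen_iInter_of_finite fun i => hU.preimage (by fun_prop))
  have hconv : ∀ a : ℂ, Convex ℝ {q : (Fin n → ℂ) × (Fin n → ℂ) | q.1 + a • q.2 ∈ U} := by
    intro a x hx y hy b c hb hc' hbc
    have : (b • x + c • y).1 + a • (b • x + c • y).2 =
        b • (x.1 + a • x.2) + c • (y.1 + a • y.2) := by
      simp only [Prod.fst_add, Prod.snd_add, Prod.smul_fst, Prod.smul_snd, smul_add]
      rw [smul_comm a b, smul_comm a c]
      abel
    show (b • x + c • y).1 + a • (b • x + c • y).2 ∈ U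
    rw [this]
    exact hc hx hy hb hc' hbc
  have hVc : Convex ℝ V :=
    (convex_iInter fun i => hconv (s i)).inter (convex_iInter fun i => hconv (t i))
  have key := polar_unique (E := (Fin n → ℂ) × (Fin n → ℂ)) (Φ := fun q q' =>
    (Matrix.of fun i j => K (q.1 + s i • q.2) (q'.1 + t j • q'.2)).det) hVo hVc ?_ ?_ (z, v)
    ⟨mem_iInter.2 h1, mem_iInter.2 h2⟩ (w, u) ⟨mem_iInter.2 h3, mem_iInter.2 h4⟩
  · exact key
  · have hent : ∀ i j, DifferentiableOn ℂ
        (fun Q : ((Fin n → ℂ) × (Fin n → ℂ)) × ((Fin n → ℂ) × (Fin n → ℂ)) =>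
          K (Q.1.1 + s i • Q.1.2) ((star Q.2).1 + t j • (star Q.2).2)) (V ×ˢ (star ⁻¹' V)) := by
      intro i j
      have g1 : Differentiable ℂ (fun Q : ((Fin n → ℂ) × (Fin n → ℂ)) × ((Fin n → ℂ) × (Fin n → ℂ)) =>
          (Q.1.1 + s i • Q.1.2, Q.2.1 + star (t j) • Q.2.2)) := by
        fun_prop
      have g2 : ∀ Q : ((Fin n → ℂ) × (Fin n → ℂ)) × ((Fin n → ℂ) × (Fin n → ℂ)),
          star (Q.2.1 + star (t j) • Q.2.2) = (star Q.2).1 + t j • (star Q.2).2 := by
        intro Q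
        rw [star_add, star_smul, star_star]
        rfl
      have g3 := DifferentiableOn.comp (g := fun q : (Fin n → ℂ) × (Fin n → ℂ) => K q.1 (star q.2))
        (f := fun Q : ((Fin n → ℂ) × (Fin n → ℂ)) × ((Fin n → ℂ) × (Fin n → ℂ)) =>
          (Q.1.1 + s i • Q.1.2, Q.2.1 + star (t j) • Q.2.2)) (s := V ×ˢ (star ⁻¹' V))
        hK g1.differentiableOn (by
          rintro Q ⟨hQ1, hQ2⟩
          refine ⟨mem_iInter.1 hQ1.1 i, ?_⟩
          show star (Q.2.1 + star (t j) • Q.2.2) ∈ U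
          rw [g2]; exact mem_iInter.1 hQ2.2 j)
      refine g3.congr fun Q hQ => ?_
      simp only [Function.comp_apply, g2]
    show DifferentiableOn ℂ (fun Q : ((Fin n → ℂ) × (Fin n → ℂ)) × ((Fin n → ℂ) × (Fin n → ℂ)) =>
      (Matrix.of fun i j => K (Q.1.1 + s i • Q.1.2) ((star Q.2).1 + t j • (star Q.2).2)).det)
      (V ×ˢ (star ⁻¹' V))
    simp only [Matrix.det_apply, Matrix.of_apply]
    refine DifferentiableOn.fun_sum fun σ _ => ?_
    refine DifferentiableOn.const_smul (fun Q hQ => ?_) _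
    exact (HasFDerivWithinAt.finsetProd (u := Finset.univ)
      (fun i _ => (hent (σ i) i Q hQ).hasFDerivWithinAt)).differentiableWithinAt
  · rintro ⟨z, v⟩ ⟨hq1, hq2⟩
    exact (line_rank hp hU hc hK h z v).det_eq_zero (Nat.lt_succ_self k) s t
      (fun i => mem_iInter.1 hq1 i) (fun i => mem_iInter.1 hq2 i)

theorem coord_rank {p : (Fin n → ℂ) → ℝ} {k : ℕ} (hp : LineHyp p k) {x₀ : Fin n → ℂ} {ρ : ℝ}
    (hρ : 0 < ρ) {K : (Fin n → ℂ) → (Fin n → ℂ) → ℂ} (hK : Sesq K (ball x₀ ρ))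
    (h : ∀ z ∈ ball x₀ ρ, K z z = ((p z : ℝ) : ℂ)) {z w : Fin n → ℂ} (hz : z ∈ ball x₀ ρ)
    (hw : w ∈ ball x₀ ρ) (i j : Fin n) :
    RankLE (fun a b : ℂ => K (Function.update z i a) (Function.update w j b)) (ball (x₀ i) ρ)
      (ball (x₀ j) ρ) k := by
  refine RankLE.of_minors fun a b ha hb => ?_
  have hupd : ∀ (z : Fin n → ℂ) (i : Fin n) (c : ℂ),
      Function.update z i (x₀ i) + (c - x₀ i) • (Pi.single i 1 : Fin n → ℂ) =
        Function.update z i c := by
    intro z i c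
    ext l
    rcases eq_or_ne l i with hl | hl
    · subst hl; simp
    · simp [hl]
  have hupd' : ∀ (z : Fin n → ℂ) (i : Fin n) (c : ℂ),
      Function.update z i (x₀ i) + c • (Pi.single i 1 : Fin n → ℂ) =
        Function.update z i (x₀ i + c) := by
    intro z i c
    have := hupd z i (x₀ i + c)
    rwa [add_sub_cancel_left] at this
  have hmem : ∀ z ∈ ball x₀ ρ, ∀ (i : Fin n) (c : ℂ), ‖c‖ < ρ →
      Function.update z i (x₀ i) + c • (Pi.single i 1 : Fin n → ℂ) ∈ ball x₀ ρ := by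
    intro z hz i c hc
    rw [hupd', ball_pi _ hρ] at *
    intro l _
    rcases eq_or_ne l i with hl | hl
    · subst hl; simpa [dist_eq_norm] using hc
    · simpa [hl] using hz l (mem_univ _)
  have ha' : ∀ l, ‖a l - x₀ i‖ < ρ := fun l => by simpa [dist_eq_norm] using ha l
  have hb' : ∀ l, ‖b l - x₀ j‖ < ρ := fun l => by simpa [dist_eq_norm] using hb l
  have key := pair_det hp isOpen_ball (convex_ball x₀ ρ) hK h (fun l => a l - x₀ i)
    (fun l => b l - x₀ j) (Function.update z i (x₀ i)) (Pi.single i 1) (Function.update w j (x₀ j))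
    (Pi.single j 1) (fun l => hmem z hz i _ (ha' l)) (fun l => hmem z hz i _ (hb' l))
    (fun l => hmem w hw j _ (ha' l)) (fun l => hmem w hw j _ (hb' l))
  simp only [hupd] at key
  exact key

theorem ball_rank {p : (Fin n → ℂ) → ℝ} {k : ℕ} (hp : LineHyp p k) {x₀ : Fin n → ℂ} {ρ : ℝ}
    (hρ : 0 < ρ) {K : (Fin n → ℂ) → (Fin n → ℂ) → ℂ} (hK : Sesq K (ball x₀ ρ))
    (h : ∀ z ∈ ball x₀ ρ, K z z = ((p z : ℝ) : ℂ)) :
    RankLE K (ball x₀ ρ) (ball x₀ ρ) ((k ^ n) ^ n) := by
  have hherm := herm isOpen_ball (convex_ball x₀ ρ) hK h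
  have hdif : ∀ w ∈ ball x₀ ρ, DifferentiableOn ℂ (fun z => K z w) (ball x₀ ρ) := by
    intro w hw
    have h1 : DifferentiableOn ℂ (fun z : Fin n → ℂ => (z, star w)) (ball x₀ ρ) := by fun_prop
    have h2 := DifferentiableOn.comp (g := fun q : (Fin n → ℂ) × (Fin n → ℂ) => K q.1 (star q.2))
      (f := fun z : Fin n → ℂ => (z, star w)) hK h1 (by
        intro z hz
        exact ⟨hz, by show star (star w) ∈ ball x₀ ρ; rw [star_star]; exact hw⟩)
    refine h2.congr fun z _ => ?_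
    simp
  have hupd : ∀ z ∈ ball x₀ ρ, ∀ (i : Fin n), ∀ a ∈ ball (x₀ i) ρ,
      Function.update z i a ∈ ball x₀ ρ := by
    intro z hz i a ha
    rw [ball_pi _ hρ] at *
    intro l _
    rcases eq_or_ne l i with hl | hl
    · subst hl; simpa using ha
    · simpa [hl] using hz l (mem_univ _)
  have step1 : ∀ z ∈ ball x₀ ρ, ∀ i : Fin n,
      RankLE (fun a w => K (Function.update z i a) w) (ball (x₀ i) ρ) (ball x₀ ρ) (k ^ n) := by
    intro z hz i
    have h1 : RankLE (fun w a => K w (Function.update z i a)) (Set.pi univ fun j => ball (x₀ j) ρ)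
        (ball (x₀ i) ρ) (k ^ n) := by
      refine RankLE.pi n (fun j => ball (x₀ j) ρ) (fun j => isOpen_ball) (fun j => convex_ball _ _)
        (fun j => nonempty_ball.2 hρ) _ ?_ ?_
      · intro a ha
        rw [← ball_pi _ hρ]
        exact hdif _ (hupd z hz i a ha)
      · intro w hw j
        rw [← ball_pi _ hρ] at hw
        exact coord_rank hp hρ hK h hw hz j i
    rw [← ball_pi _ hρ] at h1
    obtain ⟨a, b, hab⟩ := h1.conj.symm
    refine ⟨a, b, fun s hs w hw => ?_⟩
    rw [← hab s hs w hw]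
    exact hherm _ hw _ (hupd z hz i s hs)
  have step2 : RankLE K (Set.pi univ fun j => ball (x₀ j) ρ) (ball x₀ ρ) ((k ^ n) ^ n) := by
    refine RankLE.pi n (fun j => ball (x₀ j) ρ) (fun j => isOpen_ball) (fun j => convex_ball _ _)
      (fun j => nonempty_ball.2 hρ) _ ?_ ?_
    · intro w hw
      rw [← ball_pi _ hρ]
      exact hdif w hw
    · intro z hz i
      rw [← ball_pi _ hρ] at hz
      exact step1 z hz i
  rwa [← ball_pi _ hρ] at step2

end Pool.Agent.R230.HR
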