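import Mathlib
import Pool.Agent.R230.HR.Ker

/-!
# Global polarizations and the final representation
-/

set_option autoImplicit false

open Set Matrix Metric

namespace Pool.Agent.R230.HR

variable {n : ℕ}

theorem Sesq.left {K : (Fin n → ℂ) → (Fin n → ℂ) → ℂ} {U : Set (Fin n → ℂ)} (hK : Sesq K U)
    {w : Fin n → ℂ} (hw : w ∈ U) : DifferentiableOn ℂ (fun z => K z w) U := by
  have h1 : DifferentiableOn ℂ (fun z : Fin n → ℂ => (z, star w)) U := by fun_prop
  have h2 := DifferentiableOn.comp (g := fun q : (Fin n → ℂ) × (Fin n → ℂ) => K q.1 (star q.2))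
    (f := fun z : Fin n → ℂ => (z, star w)) hK h1 (by
      intro z hz
      exact ⟨hz, by show star (star w) ∈ U; rw [star_star]; exact hw⟩)
  refine h2.congr fun z _ => ?_
  simp

theorem Sesq.right {K : (Fin n → ℂ) → (Fin n → ℂ) → ℂ} {U : Set (Fin n → ℂ)} (hK : Sesq K U)
    {z : Fin n → ℂ} (hz : z ∈ U) : DifferentiableOn ℂ (fun b => K z (star b)) (star ⁻¹' U) := by
  have h1 : DifferentiableOn ℂ (fun b : Fin n → ℂ => (z, b)) (star ⁻¹' U) := by fun_prop
  exact DifferentiableOn.comp (g := fun q : (Fin n → ℂ) × (Fin n → ℂ) => K q.1 (star q.2))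
    (f := fun b : Fin n → ℂ => (z, b)) hK h1 (by
      intro b hb
      exact ⟨hz, hb⟩)

theorem convex_star_preimage {U : Set (Fin n → ℂ)} (hc : Convex ℝ U) :
    Convex ℝ (star ⁻¹' U : Set (Fin n → ℂ)) := by
  intro x hx y hy a b ha hb hab
  have : star (a • x + b • y) = a • star x + b • star y := by
    rw [star_add, star_smul, star_smul]
    simp
  show star (a • x + b • y) ∈ U
  rw [this]
  exact hc hx hy ha hb hab

/-- Extension of a skeleton decomposition. -/
theorem extend_skeleton {K : (Fin n → ℂ) → (Fin n → ℂ) → ℂ} {U N : Set (Fin n → ℂ)}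
    (hU : IsOpen U) (hc : Convex ℝ U) (hK : Sesq K U) (hN : IsOpen N) (hNU : N ⊆ U)
    (hne : N.Nonempty) {r : ℕ} (x y : Fin r → Fin n → ℂ) (hx : ∀ i, x i ∈ U) (hy : ∀ i, y i ∈ U)
    (B : Matrix (Fin r) (Fin r) ℂ)
    (h : ∀ u ∈ N, ∀ v ∈ N, K u v = ∑ i, ∑ j, K u (y j) * B j i * K (x i) v) :
    ∀ u ∈ U, ∀ v ∈ U, K u v = ∑ i, ∑ j, K u (y j) * B j i * K (x i) v := by
  have step1 : ∀ v ∈ N, ∀ u ∈ U, K u v = ∑ i, ∑ j, K u (y j) * B j i * K (x i) v := by
    intro v hv u hu
    have := eq_zero_of_convex hU hc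
      (F := fun u => K u v - ∑ i, ∑ j, K u (y j) * B j i * K (x i) v) ?_ hN hNU hne
      (fun u hu => sub_eq_zero.2 (h u hu v hv)) u hu
    · exact sub_eq_zero.1 this
    · refine (hK.left (hNU hv)).sub ?_
      refine DifferentiableOn.fun_sum fun i _ => DifferentiableOn.fun_sum fun j _ => ?_
      exact ((hK.left (hy j)).mul_const _).mul_const _
  intro u hu v hv
  have hsU : IsOpen (star ⁻¹' U : Set (Fin n → ℂ)) := hU.preimage continuous_star
  have hsN : IsOpen (star ⁻¹' N : Set (Fin n → ℂ)) := hN.preimage continuous_star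
  obtain ⟨c, hc'⟩ := hne
  have := eq_zero_of_convex hsU (convex_star_preimage hc)
    (F := fun b => K u (star b) - ∑ i, ∑ j, K u (y j) * B j i * K (x i) (star b)) ?_ hsN
    (preimage_mono hNU) ⟨star c, by show star (star c) ∈ N; rw [star_star]; exact hc'⟩
    (fun b hb => sub_eq_zero.2 (step1 (star b) hb u hu)) (star v)
    (by show star (star v) ∈ U; rw [star_star]; exact hv)
  · simpa only [star_star, sub_eq_zero] using this
  · refine (hK.right hu).sub ?_
    refine DifferentiableOn.fun_sum fun i _ => DifferentiableOn.fun_sum fun j _ => ?_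
    exact (hK.right (hx i)).const_mul _

/-- Skeleton decomposition of a polarization, with points in a given open subset. -/
theorem exists_skeleton {p : (Fin n → ℂ) → ℝ} {k : ℕ} (hp : LineHyp p k) {U W : Set (Fin n → ℂ)}
    (hU : IsOpen U) (hc : Convex ℝ U) {K : (Fin n → ℂ) → (Fin n → ℂ) → ℂ} (hK : Sesq K U)
    (h : ∀ z ∈ U, K z z = ((p z : ℝ) : ℂ)) (hW : IsOpen W) (hWU : W ⊆ U) (hne : W.Nonempty) :
    ∃ r ≤ (k ^ n) ^ n, ∃ (x y : Fin r → Fin n → ℂ), (∀ i, x i ∈ W) ∧ (∀ j, y j ∈ W) ∧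
      ∃ B : Matrix (Fin r) (Fin r) ℂ, ∀ u ∈ U, ∀ v ∈ U,
        K u v = ∑ i, ∑ j, K u (y j) * B j i * K (x i) v := by
  obtain ⟨c, hcW⟩ := hne
  obtain ⟨ρ, hρ, hball⟩ := Metric.isOpen_iff.1 hW c hcW
  have hbU : ball c ρ ⊆ U := hball.trans hWU
  have hrank := ball_rank hp hρ (hK.mono hbU) (fun z hz => h z (hbU hz))
  obtain ⟨r, hr, x, y, hx, hy, B, hB⟩ := skeleton hrank
  exact ⟨r, hr, x, y, fun i => hball (hx i), fun j => hball (hy j), B,
    extend_skeleton hU hc hK isOpen_ball hbU (nonempty_ball.2 hρ) x y (fun i => hbU (hx i))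
      (fun i => hbU (hy i)) B hB⟩

/-- Gluing. -/
theorem glue {p : (Fin n → ℂ) → ℝ} {k : ℕ} (hp : LineHyp p k) {U₁ U₂ : Set (Fin n → ℂ)}
    (h1o : IsOpen U₁) (h1c : Convex ℝ U₁) (h2o : IsOpen U₂) (h2c : Convex ℝ U₂)
    (hne : (U₁ ∩ U₂).Nonempty) (h1 : HasKer p U₁) (h2 : HasKer p U₂) : HasKer p (U₁ ∪ U₂) := by
  classical
  obtain ⟨K₁, hK₁, hd₁⟩ := h1
  obtain ⟨K₂, hK₂, hd₂⟩ := h2
  have hWo : IsOpen (U₁ ∩ U₂) := h1o.inter h2o
  have hWc : Convex ℝ (U₁ ∩ U₂) := h1c.inter h2c
  have heq : ∀ z ∈ U₁ ∩ U₂, ∀ w ∈ U₁ ∩ U₂, K₁ z w = K₂ z w :=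
    ker_unique hWo hWc (hK₁.mono inter_subset_left) (hK₂.mono inter_subset_right)
      (fun z hz => hd₁ z hz.1) (fun z hz => hd₂ z hz.2)
  obtain ⟨r, -, x, y, hx, hy, B, hB⟩ := exists_skeleton hp h1o h1c hK₁ hd₁ hWo inter_subset_left hne
  have hB2 : ∀ u ∈ U₂, ∀ v ∈ U₂, K₂ u v = ∑ i, ∑ j, K₂ u (y j) * B j i * K₂ (x i) v := by
    refine extend_skeleton h2o h2c hK₂ hWo inter_subset_right hne x y (fun i => (hx i).2)
      (fun i => (hy i).2) B fun u hu v hv => ?_
    rw [← heq u hu v hv, hB u hu.1 v hv.1]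
    refine Finset.sum_congr rfl fun i _ => Finset.sum_congr rfl fun j _ => ?_
    rw [heq u hu _ (hy j), heq _ (hx i) v hv]
  let φ : Fin r → (Fin n → ℂ) → ℂ := fun j z => if z ∈ U₁ then K₁ z (y j) else K₂ z (y j)
  let χ : Fin r → (Fin n → ℂ) → ℂ := fun i w => if w ∈ U₁ then K₁ (x i) w else K₂ (x i) w
  have hφ1 : ∀ j, ∀ z ∈ U₁, φ j z = K₁ z (y j) := fun j z hz => by simp [φ, hz]
  have hφ2 : ∀ j, ∀ z ∈ U₂, φ j z = K₂ z (y j) := fun j z hz => by
    by_cases hz1 : z ∈ U₁
    · simp only [φ, hz1, if_true]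
      exact heq z ⟨hz1, hz⟩ _ (hy j)
    · simp [φ, hz1]
  have hχ1 : ∀ i, ∀ w ∈ U₁, χ i w = K₁ (x i) w := fun i w hw => by simp [χ, hw]
  have hχ2 : ∀ i, ∀ w ∈ U₂, χ i w = K₂ (x i) w := fun i w hw => by
    by_cases hw1 : w ∈ U₁
    · simp only [χ, hw1, if_true]
      exact heq _ (hx i) w ⟨hw1, hw⟩
    · simp [χ, hw1]
  have hφd : ∀ j, DifferentiableOn ℂ (φ j) (U₁ ∪ U₂) := by
    intro j z hz
    rcases hz with hz | hz
    · have e1 : DifferentiableAt ℂ (fun z => K₁ z (y j)) z :=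
        (hK₁.left (hy j).1).differentiableAt (h1o.mem_nhds hz)
      refine (e1.congr_of_eventuallyEq ?_).differentiableWithinAt
      filter_upwards [h1o.mem_nhds hz] with z' hz' using hφ1 j z' hz'
    · have e1 : DifferentiableAt ℂ (fun z => K₂ z (y j)) z :=
        (hK₂.left (hy j).2).differentiableAt (h2o.mem_nhds hz)
      refine (e1.congr_of_eventuallyEq ?_).differentiableWithinAt
      filter_upwards [h2o.mem_nhds hz] with z' hz' using hφ2 j z' hz'
  have hχd : ∀ i, DifferentiableOn ℂ (fun b => χ i (star b)) (star ⁻¹' (U₁ ∪ U₂)) := by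
    intro i b hb
    have hs1 : IsOpen (star ⁻¹' U₁ : Set (Fin n → ℂ)) := h1o.preimage continuous_star
    have hs2 : IsOpen (star ⁻¹' U₂ : Set (Fin n → ℂ)) := h2o.preimage continuous_star
    rcases hb with hb | hb
    · have e1 : DifferentiableAt ℂ (fun b => K₁ (x i) (star b)) b :=
        (hK₁.right (hx i).1).differentiableAt (hs1.mem_nhds hb)
      refine (e1.congr_of_eventuallyEq ?_).differentiableWithinAt
      filter_upwards [hs1.mem_nhds hb] with z' hz' using hχ1 i _ hz'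
    · have e1 : DifferentiableAt ℂ (fun b => K₂ (x i) (star b)) b :=
        (hK₂.right (hx i).2).differentiableAt (hs2.mem_nhds hb)
      refine (e1.congr_of_eventuallyEq ?_).differentiableWithinAt
      filter_upwards [hs2.mem_nhds hb] with z' hz' using hχ2 i _ hz'
  refine ⟨fun z w => ∑ i, ∑ j, φ j z * B j i * χ i w, ?_, ?_⟩
  · refine DifferentiableOn.fun_sum fun i _ => DifferentiableOn.fun_sum fun j _ => ?_
    refine DifferentiableOn.mul (DifferentiableOn.mul_const ?_ _) ?_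
    · exact (hφd j).comp differentiable_fst.differentiableOn (fun q hq => hq.1)
    · exact (hχd i).comp (g := fun b => χ i (star b)) differentiable_snd.differentiableOn
        (fun q hq => hq.2)
  · rintro z (hz | hz)
    · rw [← hd₁ z hz, hB z hz z hz]
      refine Finset.sum_congr rfl fun i _ => Finset.sum_congr rfl fun j _ => ?_
      rw [hφ1 j z hz, hχ1 i z hz]
    · rw [← hd₂ z hz, hB2 z hz z hz]
      refine Finset.sum_congr rfl fun i _ => Finset.sum_congr rfl fun j _ => ?_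
      rw [hφ2 j z hz, hχ2 i z hz]

/-- Any two points lie in a convex open set on which there is a polarization. -/
theorem exists_tube {p : (Fin n → ℂ) → ℝ} {k : ℕ} (hp : LineHyp p k)
    (han : ∀ x, AnalyticAt ℝ p x) (z w : Fin n → ℂ) :
    ∃ T : Set (Fin n → ℂ), IsOpen T ∧ Convex ℝ T ∧ z ∈ T ∧ w ∈ T ∧ HasKer p T := by
  let γ : ℝ → (Fin n → ℂ) := fun t => z + t • (w - z)
  have hγ : Continuous γ := by fun_prop
  let S : ℝ → Prop := fun t => ∃ T : Set (Fin n → ℂ), IsOpen T ∧ Convex ℝ T ∧ z ∈ T ∧ γ t ∈ T ∧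
    HasKer p T
  have hloc : ∀ x ∈ Icc (0 : ℝ) 1, ∀ᶠ y in nhdsWithin x (Icc 0 1), (S x → S y) ∧ (S y → S x) := by
    intro x _
    obtain ⟨ρ, hρ, hker⟩ := exists_local (han (γ x))
    have h1 : ∀ᶠ y in nhds x, γ y ∈ ball (γ x) ρ :=
      hγ.continuousAt.eventually_mem (isOpen_ball.mem_nhds (mem_ball_self hρ))
    have step : ∀ a b : ℝ, γ a ∈ ball (γ x) ρ → γ b ∈ ball (γ x) ρ → S a → S b := by
      rintro a b ha hb ⟨T, hTo, hTc, hzT, haT, hTk⟩
      have hk : HasKer p (T ∪ ball (γ x) ρ) :=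
        glue hp hTo hTc isOpen_ball (convex_ball _ _) ⟨γ a, haT, ha⟩ hTk hker
      -- the segment from `z` to `γ b`
      have hγl : ∀ t : ℝ, γ t = AffineMap.lineMap z w t := by
        intro t
        simp only [γ, AffineMap.lineMap_apply, vsub_eq_sub, vadd_eq_add]
        exact add_comm _ _
      have hA : Convex ℝ (γ ⁻¹' T) := by
        have : γ ⁻¹' T = (AffineMap.lineMap z w : ℝ →ᵃ[ℝ] (Fin n → ℂ)) ⁻¹' T := by
          ext t; simp only [mem_preimage, hγl]
        rw [this]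
        exact hTc.affine_preimage _
      have hB : Convex ℝ (γ ⁻¹' ball (γ x) ρ) := by
        have : γ ⁻¹' ball (γ x) ρ =
            (AffineMap.lineMap z w : ℝ →ᵃ[ℝ] (Fin n → ℂ)) ⁻¹' ball (γ x) ρ := by
          ext t; simp only [mem_preimage, hγl]
        rw [this]
        exact (convex_ball _ _).affine_preimage _
      have hγ0 : γ 0 ∈ T := by simpa [γ] using hzT
      have hseg : segment ℝ z (γ b) ⊆ T ∪ ball (γ x) ρ := by
        rw [segment_eq_image]
        rintro _ ⟨s, hs, rfl⟩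
        have e1 : (1 - s) • z + s • γ b = γ (s * b) := by
          simp only [γ, mul_smul, smul_add, sub_smul, one_smul]
          abel
        show (1 - s) • z + s • γ b ∈ T ∪ ball (γ x) ρ
        rw [e1]
        have hmem : s * b ∈ uIcc 0 b := by
          rw [← segment_eq_uIcc, segment_eq_image]
          exact ⟨s, hs, by simp⟩
        rcases uIcc_subset_uIcc_union_uIcc (b := a) hmem with h | h
        · left
          exact hA.ordConnected.uIcc_subset hγ0 haT h
        · right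
          exact hB.ordConnected.uIcc_subset ha hb h
      have hcomp : IsCompact (segment ℝ z (γ b)) := by
        rw [segment_eq_image_lineMap]
        exact isCompact_Icc.image (by fun_prop)
      obtain ⟨δ, hδ, hthick⟩ := hcomp.exists_thickening_subset_open (hTo.union isOpen_ball) hseg
      refine ⟨thickening δ (segment ℝ z (γ b)), isOpen_thickening,
        (convex_segment _ _).thickening δ, ?_, ?_, hk.mono hthick⟩
      · exact self_subset_thickening hδ _ (left_mem_segment _ _ _)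
      · exact self_subset_thickening hδ _ (right_mem_segment _ _ _)
    filter_upwards [h1.filter_mono nhdsWithin_le_nhds] with y hy
    exact ⟨step x y (mem_ball_self hρ) hy, step y x hy (mem_ball_self hρ)⟩
  have h0 : S 0 := by
    obtain ⟨ρ, hρ, hker⟩ := exists_local (han z)
    exact ⟨ball z ρ, isOpen_ball, convex_ball _ _, mem_ball_self hρ,
      by simp only [γ, zero_smul, add_zero]; exact mem_ball_self hρ, hker⟩
  have h1 : S 1 := by
    have := isPreconnected_Icc.induction₂' (fun x y => S x → S y) hloc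
      (fun x y z _ _ _ h1 h2 h => h2 (h1 h)) (left_mem_Icc.2 zero_le_one)
      (right_mem_Icc.2 (zero_le_one (α := ℝ)))
    exact this h0
  obtain ⟨T, h1, h2, h3, h4, h5⟩ := h1
  refine ⟨T, h1, h2, h3, ?_, h5⟩
  simpa [γ] using h4

/-- There is a global polarization. -/
theorem hasKer_univ {p : (Fin n → ℂ) → ℝ} {k : ℕ} (hp : LineHyp p k)
    (han : ∀ x, AnalyticAt ℝ p x) : HasKer p univ := by
  choose T hTo hTc hz hw hker using exists_tube hp han
  choose K hK hd using hker
  have heq : ∀ z w z' w' : Fin n → ℂ, z' ∈ T z w → w' ∈ T z w → K z' w' z' w' = K z w z' w' := by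
    intro z w z' w' h1 h2
    exact ker_unique ((hTo z' w').inter (hTo z w)) ((hTc z' w').inter (hTc z w))
      ((hK z' w').mono inter_subset_left) ((hK z w).mono inter_subset_right)
      (fun x hx => hd _ _ x hx.1) (fun x hx => hd _ _ x hx.2) z' ⟨hz _ _, h1⟩ w' ⟨hw _ _, h2⟩
  refine ⟨fun z w => K z w z w, ?_, fun z _ => hd z z z (hz z z)⟩
  intro q _
  have hopen : IsOpen (T q.1 (star q.2) ×ˢ (star ⁻¹' T q.1 (star q.2))) :=
    (hTo _ _).prod ((hTo _ _).preimage continuous_star)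
  have hq : q ∈ T q.1 (star q.2) ×ˢ (star ⁻¹' T q.1 (star q.2)) := ⟨hz _ _, hw _ _⟩
  have h1 : DifferentiableAt ℂ
      (fun q' : (Fin n → ℂ) × (Fin n → ℂ) => K q.1 (star q.2) q'.1 (star q'.2)) q :=
    DifferentiableOn.differentiableAt (hK q.1 (star q.2)) (hopen.mem_nhds hq)
  refine (h1.congr_of_eventuallyEq ?_).differentiableWithinAt
  filter_upwards [hopen.mem_nhds hq] with q' hq'
  exact heq _ _ _ _ hq'.1 hq'.2

theorem normSq_sub (x y : ℂ) :
    Complex.normSq ((x + y) / 2) - Complex.normSq ((x - y) / 2) = (x * (starRingEnd ℂ) y).re := by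
  simp only [Complex.normSq_apply, Complex.mul_re, Complex.conj_re, Complex.conj_im, Complex.div_re,
    Complex.div_im, Complex.add_re, Complex.add_im, Complex.sub_re, Complex.sub_im]
  norm_num
  ring

/-- Padding. -/
theorem pad {p : (Fin n → ℂ) → ℝ} {ι : Type*} [Fintype ι] (ε : ι → ℝ) (f : ι → (Fin n → ℂ) → ℂ)
    (hε : ∀ i, ε i = 1 ∨ ε i = -1) (hf : ∀ i, Differentiable ℂ (f i))
    (h : ∀ z, p z = ∑ i, ε i * Complex.normSq (f i z)) {c : ℕ} (hc : Fintype.card ι ≤ c) :
    ∃ (ε : Fin c → ℝ) (f : Fin c → (Fin n → ℂ) → ℂ),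
      (∀ j, ε j = 1 ∨ ε j = -1) ∧ (∀ j, Differentiable ℂ (f j)) ∧
        ∀ z, p z = ∑ j, ε j * Complex.normSq (f j z) := by
  classical
  let e : ι ≃ Fin (Fintype.card ι) := Fintype.equivFin ι
  refine ⟨fun j => if hj : (j : ℕ) < Fintype.card ι then ε (e.symm ⟨j, hj⟩) else 1,
    fun j z => if hj : (j : ℕ) < Fintype.card ι then f (e.symm ⟨j, hj⟩) z else 0, ?_, ?_, ?_⟩
  · intro j
    by_cases hj : (j : ℕ) < Fintype.card ι
    · simp only [hj, dif_pos]; exact hε _
    · simp [hj]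
  · intro j
    by_cases hj : (j : ℕ) < Fintype.card ι
    · simp only [hj, dif_pos]; exact hf _
    · simp only [hj, dif_neg, not_false_eq_true]; exact differentiable_const _
  · intro z
    rw [h z, ← e.symm.sum_comp]
    have hinj : Function.Injective (Fin.castLE hc) := Fin.castLE_injective hc
    rw [← Finset.sum_subset (Finset.subset_univ (Finset.univ.map ⟨Fin.castLE hc, hinj⟩))]
    · rw [Finset.sum_map]
      refine Finset.sum_congr rfl fun j _ => ?_
      have hj : ((Fin.castLE hc j : Fin c) : ℕ) < Fintype.card ι := by simp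
      simp
    · intro j _ hj
      have hj' : ¬ ((j : ℕ) < Fintype.card ι) := by
        intro hlt
        apply hj
        simp only [Finset.mem_map, Finset.mem_univ, true_and, Function.Embedding.coeFn_mk]
        exact ⟨⟨j, hlt⟩, by ext; simp⟩
      simp [hj']

/-- The final representation. -/
theorem exists_rep {p : (Fin n → ℂ) → ℝ} {k : ℕ} (hp : LineHyp p k)
    (han : ∀ x, AnalyticAt ℝ p x) :
    ∃ (ε : Fin (2 * (((k ^ n) ^ n) * ((k ^ n) ^ n))) → ℝ)
      (f : Fin (2 * (((k ^ n) ^ n) * ((k ^ n) ^ n))) → (Fin n → ℂ) → ℂ),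
      (∀ j, ε j = 1 ∨ ε j = -1) ∧ (∀ j, Differentiable ℂ (f j)) ∧
        ∀ z, p z = ∑ j, ε j * Complex.normSq (f j z) := by
  obtain ⟨K, hK, hd⟩ := hasKer_univ hp han
  obtain ⟨r, hr, x, y, -, -, B, hB⟩ := exists_skeleton hp isOpen_univ convex_univ hK hd isOpen_univ
    subset_rfl univ_nonempty
  have hherm := herm isOpen_univ convex_univ hK hd
  have hdiff : ∀ w, Differentiable ℂ (fun z => K z w) := fun w =>
    differentiableOn_univ.1 (hK.left (mem_univ w))
  let F : Fin r → Fin r → Bool → (Fin n → ℂ) → ℂ := fun i j b z =>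
    if b then (K z (y j) * B j i + K z (x i)) / 2 else (K z (y j) * B j i - K z (x i)) / 2
  have hsum : ∀ z, p z = ∑ i, ∑ j, ∑ b : Bool, (if b then (1 : ℝ) else -1) *
      Complex.normSq (F i j b z) := by
    intro z
    have h1 : p z = (K z z).re := by rw [hd z (mem_univ z)]; simp
    rw [h1, hB z (mem_univ z) z (mem_univ z), Complex.re_sum]
    refine Finset.sum_congr rfl fun i _ => ?_
    rw [Complex.re_sum]
    refine Finset.sum_congr rfl fun j _ => ?_
    rw [hherm z (mem_univ z) (x i) (mem_univ _), ← normSq_sub]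
    simp [F]
    ring
  refine pad (ι := Fin r × Fin r × Bool) (fun q => if q.2.2 then (1 : ℝ) else -1)
    (fun q => F q.1 q.2.1 q.2.2) ?_ ?_ ?_ ?_
  · rintro ⟨i, j, b⟩
    cases b <;> simp
  · rintro ⟨i, j, b⟩
    have h1 := hdiff (y j)
    have h2 := hdiff (x i)
    cases b
    · simp only [F, div_eq_mul_inv]
      exact (((h1.mul_const (B j i)).sub h2).mul_const ((2 : ℂ)⁻¹))
    · simp only [F, div_eq_mul_inv]
      exact (((h1.mul_const (B j i)).add h2).mul_const ((2 : ℂ)⁻¹))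
  · intro z
    rw [hsum z, Fintype.sum_prod_type]
    refine Finset.sum_congr rfl fun i _ => ?_
    rw [Fintype.sum_prod_type]
  · simp only [Fintype.card_prod, Fintype.card_fin, Fintype.card_bool]
    calc r * (r * 2) = 2 * (r * r) := by ring
      _ ≤ _ := by gcongr

end Pool.Agent.R230.HR
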